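import Pool.Agent.Lib.MP_e1f7e2_al.FA.Iface

set_option autoImplicit false

/-!
Project FA, module COMW: commuting elements of the free algebra.
-/

open MulOpposite

namespace Pool.Agent.Lib.MP_e1f7e2_al.FA.H44

variable {K : Type*} [Field K] {n : ℕ}

/-- all words have length `l` -/
def LL (l : ℕ) (f : A K n) : Prop := ∀ u ∈ f.coeff.support, u.toList.length = l

/-- remove the prefix `p` -/
noncomputable def lam (p : Wd n) (f : A K n) : A K n :=
  MonoidAlgebra.ofCoeff (f.coeff.comapDomain (fun u => p * u) (mul_right_injective p).injOn)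

lemma lam_coeff (p : Wd n) (f : A K n) (u : Wd n) : (lam p f).coeff u = f.coeff (p * u) := rfl

lemma lam_add (p : Wd n) (f g : A K n) : lam p (f + g) = lam p f + lam p g := by
  ext u
  simp only [lam_coeff, MonoidAlgebra.coeff_add, Finsupp.add_apply]

lemma lam_smul (p : Wd n) (c : K) (f : A K n) : lam p (c • f) = c • lam p f := by
  ext u
  simp only [lam_coeff, MonoidAlgebra.coeff_smul, Finsupp.smul_apply]

lemma lam_zero (p : Wd n) : lam p (0 : A K n) = 0 := by
  ext u
  simp only [lam_coeff, MonoidAlgebra.coeff_zero, Finsupp.coe_zero, Pi.zero_apply]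

lemma lam_single_mul {p u : Wd n} (h : p.toList.length ≤ u.toList.length) (r : K) (c : A K n) :
    lam p (MonoidAlgebra.single u r * c) = lam p (MonoidAlgebra.single u r) * c := by
  classical
  by_cases hp : p.toList <+: u.toList
  · obtain ⟨s, hs⟩ := hp
    have hu : u = p * FreeMonoid.ofList s := by
      apply FreeMonoid.toList.injective
      rw [FreeMonoid.toList_mul, FreeMonoid.toList_ofList]
      exact hs.symm
    have h1 : lam p (MonoidAlgebra.single u r : A K n) =
        MonoidAlgebra.single (FreeMonoid.ofList s) r := by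
      ext w
      rw [lam_coeff, hu, MonoidAlgebra.coeff_single, MonoidAlgebra.coeff_single]
      by_cases hw : FreeMonoid.ofList s = w
      · rw [← hw, Finsupp.single_eq_same, Finsupp.single_eq_same]
      · rw [Finsupp.single_eq_of_ne, Finsupp.single_eq_of_ne]
        · exact fun hh => hw hh.symm
        · exact fun hh => hw (mul_left_cancel hh).symm
    rw [h1]
    ext w
    rw [lam_coeff]
    have h2 : (MonoidAlgebra.single u r : A K n) =
        MonoidAlgebra.single p 1 * MonoidAlgebra.single (FreeMonoid.ofList s) r := by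
      rw [MonoidAlgebra.single_mul_single, one_mul, ← hu]
    rw [h2, mul_assoc, MonoidAlgebra.coeff_single_mul_mul, one_mul]
  · have h1 : lam p (MonoidAlgebra.single u r : A K n) = 0 := by
      ext w
      rw [lam_coeff, MonoidAlgebra.coeff_single, MonoidAlgebra.coeff_zero, Finsupp.single_eq_of_ne]
      · rfl
      · intro hh
        apply hp
        rw [← hh, FreeMonoid.toList_mul]
        exact List.prefix_append _ _
    rw [h1, zero_mul]
    ext w
    rw [lam_coeff, MonoidAlgebra.coeff_single_mul_of_forall_mul_ne]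
    · rfl
    · intro d hd
      apply hp
      have h3 : p.toList <+: (u * d).toList := by
        rw [hd, FreeMonoid.toList_mul]
        exact List.prefix_append _ _
      rw [FreeMonoid.toList_mul] at h3
      exact List.prefix_of_prefix_length_le h3 (List.prefix_append _ _) h

lemma lam_mul {p : Wd n} {f : A K n}
    (h : ∀ u ∈ f.coeff.support, p.toList.length ≤ u.toList.length) (c : A K n) :
    lam p (f * c) = lam p f * c := by
  have key : ∀ s : Finset (Wd n), (∀ u ∈ s, p.toList.length ≤ u.toList.length) →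
      lam p ((∑ u ∈ s, MonoidAlgebra.single u (f.coeff u) : A K n) * c) =
        lam p (∑ u ∈ s, MonoidAlgebra.single u (f.coeff u) : A K n) * c := by
    classical
    intro s
    induction s using Finset.induction_on with
    | empty => intro _; simp [lam_zero]
    | insert a s ha ih =>
      intro hs
      rw [Finset.sum_insert ha, add_mul, lam_add, lam_add, add_mul,
        lam_single_mul (hs a (Finset.mem_insert_self _ _)),
        ih (fun u hu => hs u (Finset.mem_insert_of_mem hu))]
  have h1 : (∑ u ∈ f.coeff.support, MonoidAlgebra.single u (f.coeff u) : A K n) = f :=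
    MonoidAlgebra.sum_coeff_single f
  have h2 := key f.coeff.support h
  rw [h1] at h2
  exact h2

lemma lam_LL {p : Wd n} {m r : ℕ} {f : A K n} (hf : LL (m + r) f) (hp : p.toList.length = m) :
    LL r (lam p f) := by
  intro u hu
  rw [Finsupp.mem_support_iff, lam_coeff, ← Finsupp.mem_support_iff] at hu
  have := hf _ hu
  rw [FreeMonoid.toList_mul, List.length_append, hp] at this
  omega

lemma LL_zero_const {f : A K n} (hf : LL 0 f) : f = f.coeff 1 • 1 := by
  ext u
  rw [MonoidAlgebra.coeff_smul, Finsupp.smul_apply, MonoidAlgebra.one_def,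
    MonoidAlgebra.coeff_single]
  by_cases hu : u = 1
  · rw [hu, Finsupp.single_eq_same]
    simp
  · rw [Finsupp.single_eq_of_ne hu, smul_zero]
    by_contra hc
    have := hf u (Finsupp.mem_support_iff.2 hc)
    apply hu
    apply FreeMonoid.toList.injective
    rw [List.length_eq_zero_iff.1 this]
    rfl

lemma lam_const {p : Wd n} {m : ℕ} {f : A K n} (hf : LL m f) (hp : p.toList.length = m) :
    lam p f = f.coeff p • 1 := by
  have h := LL_zero_const (lam_LL (r := 0) hf hp)
  rw [lam_coeff, mul_one] at h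
  exact h

/-- division from the left -/
lemma div_left (hdom : ∀ f g : A K n, f * g = 0 → f = 0 ∨ g = 0) {a b c d : A K n} {m r : ℕ}
    (ha : LL (m + r) a) (hb : LL m b) (h : a * c = b * d) (hb0 : b ≠ 0) (hc : c ≠ 0) :
    ∃ e, LL r e ∧ a = b * e ∧ e * c = d := by
  obtain ⟨p, hp⟩ : b.coeff.support.Nonempty := by
    rw [Finsupp.support_nonempty_iff]
    exact fun h0 => hb0 (MonoidAlgebra.coeff_eq_zero.1 h0)
  have hpl := hb p hp
  have hpc : b.coeff p ≠ 0 := Finsupp.mem_support_iff.1 hp
  have h1 : lam p a * c = b.coeff p • d := by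
    rw [← lam_mul (fun u hu => by rw [ha u hu, hpl]; omega), h,
      lam_mul (fun u hu => by rw [hb u hu, hpl]), lam_const hb hpl, smul_mul_assoc, one_mul]
  refine ⟨(b.coeff p)⁻¹ • lam p a, ?_, ?_, ?_⟩
  · intro u hu
    apply lam_LL ha hpl u
    rw [Finsupp.mem_support_iff] at hu ⊢
    intro h0
    apply hu
    rw [MonoidAlgebra.coeff_smul, Finsupp.smul_apply, h0, smul_zero]
  · have h2 : ((b.coeff p)⁻¹ • lam p a) * c = d := by
      rw [smul_mul_assoc, h1, smul_smul, inv_mul_cancel₀ hpc, one_smul]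
    have h3 : (a - b * ((b.coeff p)⁻¹ • lam p a)) * c = 0 := by
      rw [sub_mul, mul_assoc, h2, h, sub_self]
    rcases hdom _ _ h3 with h4 | h4
    · exact sub_eq_zero.1 h4
    · exact absurd h4 hc
  · rw [smul_mul_assoc, h1, smul_smul, inv_mul_cancel₀ hpc, one_smul]

lemma LL.mul {a b : ℕ} {f g : A K n} (hf : LL a f) (hg : LL b g) : LL (a + b) (f * g) := by
  classical
  intro u hu
  have := MonoidAlgebra.support_coeff_mul_subset f g hu
  obtain ⟨x, hx, y, hy, hxy⟩ := Finset.mem_mul.1 this
  rw [← hxy, FreeMonoid.toList_mul, List.length_append, hf x hx, hg y hy]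

lemma LL.smul {a : ℕ} {f : A K n} (hf : LL a f) (c : K) : LL a (c • f) := by
  intro u hu
  apply hf u
  rw [Finsupp.mem_support_iff] at hu ⊢
  intro h0
  apply hu
  rw [MonoidAlgebra.coeff_smul, Finsupp.smul_apply, h0, smul_zero]

lemma LL_one : LL 0 (1 : A K n) := by
  classical
  intro u hu
  rw [MonoidAlgebra.one_def, MonoidAlgebra.coeff_single] at hu
  have := Finsupp.support_single_subset hu
  rw [Finset.mem_singleton.1 this]
  rfl

lemma LL.pow {a : ℕ} {f : A K n} (hf : LL a f) (k : ℕ) : LL (k * a) (f ^ k) := by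
  induction k with
  | zero => simpa using LL_one
  | succ k ih =>
    rw [pow_succ, Nat.succ_mul]
    exact ih.mul hf

lemma pow_ne (hdom : ∀ f g : A K n, f * g = 0 → f = 0 ∨ g = 0) {f : A K n} (hf : f ≠ 0)
    (k : ℕ) : f ^ k ≠ 0 := by
  induction k with
  | zero => simp
  | succ k ih =>
    rw [pow_succ]
    intro h
    rcases hdom _ _ h with h | h
    · exact ih h
    · exact hf h

/-- commuting elements of the same length are proportional -/
lemma prop1 (hdom : ∀ f g : A K n, f * g = 0 → f = 0 ∨ g = 0) {u x t s : A K n} {l : ℕ}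
    (hu : LL l u) (hx : LL l x) (hx0 : x ≠ 0) (ht : t ≠ 0) (h : u * t = x * s) :
    ∃ c : K, u = c • x := by
  obtain ⟨e, he, h1, _⟩ := div_left hdom (r := 0) hu hx h hx0 ht
  refine ⟨e.coeff 1, ?_⟩
  rw [h1]
  conv_lhs => rw [LL_zero_const he]
  rw [mul_smul_comm, mul_one]

/-- elements of the same length commuting with `v` are proportional -/
lemma prop2 (hdom : ∀ f g : A K n, f * g = 0 → f = 0 ∨ g = 0) {u x v : A K n} {l m : ℕ}
    (hu : LL l u) (hx : LL l x) (hv : LL m v) (hu0 : u ≠ 0) (hx0 : x ≠ 0) (hv0 : v ≠ 0)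
    (hm : 0 < m) (h1 : u * v = v * u) (h2 : x * v = v * x) : ∃ c : K, u = c • x := by
  have hvk : LL (l * m) (v ^ l) := hv.pow l
  have hle : l ≤ l * m := Nat.le_mul_of_pos_right l hm
  obtain ⟨r, hr⟩ := Nat.exists_eq_add_of_le hle
  rw [hr] at hvk
  have cu : v ^ l * u = u * v ^ l := (Commute.pow_right (show Commute u v from h1) l).symm
  have cx : v ^ l * x = x * v ^ l := (Commute.pow_right (show Commute x v from h2) l).symm
  obtain ⟨t, _, ht, _⟩ := div_left hdom hvk hu cu hu0 hu0
  obtain ⟨s, _, hs, _⟩ := div_left hdom hvk hx cx hx0 hx0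
  have ht0 : t ≠ 0 := by
    rintro rfl
    rw [mul_zero] at ht
    exact pow_ne hdom hv0 l ht
  exact prop1 hdom hu hx hx0 ht0 (ht.symm.trans hs)

/-- transitivity -/
lemma trans1 (hdom : ∀ f g : A K n, f * g = 0 → f = 0 ∨ g = 0) {v : A K n} {m : ℕ}
    (hv : LL m v) (hv0 : v ≠ 0) (hm : 0 < m) : ∀ (N l k : ℕ) (u x : A K n), l + k ≤ N →
    LL l u → LL k x → u ≠ 0 → x ≠ 0 → u * v = v * u → x * v = v * x → u * x = x * u := by
  intro N
  induction N with
  | zero =>
    intro l k u x hN hu hx _ _ _ _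
    have hl : l = 0 := by omega
    subst hl
    rw [LL_zero_const hu]
    simp
  | succ N ih =>
    have main : ∀ (l k : ℕ) (u x : A K n), l + k ≤ N + 1 → k ≤ l →
        LL l u → LL k x → u ≠ 0 → x ≠ 0 → u * v = v * u → x * v = v * x → u * x = x * u := by
      intro l k u x hN hkl hu hx hu0 hx0 h1 h2
      rcases Nat.eq_zero_or_pos k with hk | hk
      · subst hk
        rw [LL_zero_const hx]
        simp
      · obtain ⟨r, hr⟩ := Nat.exists_eq_add_of_le hkl
        obtain ⟨l', hl'⟩ : ∃ l', l = l' + 1 := ⟨l - 1, by omega⟩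
        obtain ⟨k', hk'⟩ : ∃ k', k = k' + 1 := ⟨k - 1, by omega⟩
        have p1 : LL (k * l) (u ^ k) := hu.pow k
        have p2 : LL (k * l) (x ^ l) := by
          rw [Nat.mul_comm]
          exact hx.pow l
        obtain ⟨c, hc⟩ := prop2 hdom p1 p2 hv (pow_ne hdom hu0 k) (pow_ne hdom hx0 l) hv0 hm
          (Commute.pow_left (show Commute u v from h1) k)
          (Commute.pow_left (show Commute x v from h2) l)
        have h3 : u * u ^ k' = x * (c • x ^ l') := by
          rw [← pow_succ', ← hk', hc, hl', pow_succ', mul_smul_comm]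
        have hu' := hu
        rw [hr] at hu'
        obtain ⟨e, he, hue, _⟩ := div_left hdom hu' hx h3 hx0 (pow_ne hdom hu0 k')
        have he0 : e ≠ 0 := by
          rintro rfl
          rw [mul_zero] at hue
          exact hu0 hue
        have hev : e * v = v * e := by
          have h4 : x * (e * v - v * e) = 0 := by
            rw [mul_sub, ← mul_assoc, ← hue, h1, ← mul_assoc, h2, mul_assoc, ← hue, sub_self]
          rcases hdom _ _ h4 with h5 | h5
          · exact absurd h5 hx0
          · exact sub_eq_zero.1 h5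
        have hex : e * x = x * e := ih r k e x (by omega) he hx he0 hx0 hev h2
        rw [hue, mul_assoc, hex]
    intro l k u x hN hu hx hu0 hx0 h1 h2
    rcases le_total k l with h | h
    · exact main l k u x hN h hu hx hu0 hx0 h1 h2
    · exact (main k l x u (by omega) h hx hu hx0 hu0 h2 h1).symm

lemma pos_len {w : Fin n → ℝ} (hd : DegFacts K w) {f : A K n} {l : ℕ} (hf : LL l f)
    (h : 0 < dg w f) : 0 < l := by
  rcases Nat.eq_zero_or_pos l with h0 | h0
  · subst h0
    rw [LL_zero_const hf, hd.const] at h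
    exact absurd h (lt_irrefl _)
  · exact h0

lemma ne_of_pos {w : Fin n → ℝ} (hd : DegFacts K w) {f : A K n} (h : 0 < dg w f) : f ≠ 0 := by
  rintro rfl
  rw [hd.zero] at h
  exact lt_irrefl _ h

lemma pos_of_len {w : Fin n → ℝ} (hd : DegFacts K w) {f : A K n} {l : ℕ} (hf : LL l f)
    (hl : 0 < l) (h0 : f ≠ 0) : 0 < dg w f := by
  rcases (hd.nn f).lt_or_eq with h | h
  · exact h
  · exfalso
    obtain ⟨c, hc⟩ := hd.of_zero f h.symm
    obtain ⟨p, hp⟩ : f.coeff.support.Nonempty := by
      rw [Finsupp.support_nonempty_iff]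
      exact fun h1 => h0 (MonoidAlgebra.coeff_eq_zero.1 h1)
    have h1 := hf p hp
    have h2 : LL 0 f := by
      rw [hc]
      exact LL_one.smul c
    have h3 := h2 p hp
    omega

lemma hom_factor {w : Fin n → ℝ} (hd : DegFacts K w) (ht : TopFacts K w) {u v t : A K n}
    (hu : Hom w u) (hv : Hom w v) (hu0 : u ≠ 0) (h : u = v * t) : Hom w t := by
  have hv0 : v ≠ 0 := by
    rintro rfl
    rw [zero_mul] at h
    exact hu0 h
  have ht0 : t ≠ 0 := by
    rintro rfl
    rw [mul_zero] at h
    exact hu0 h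
  have h1 := ht.mul v t hv0 ht0
  rw [← h, ht.self u hu, ht.self v hv, h] at h1
  have h2 : v * (t - top w t) = 0 := by rw [mul_sub, ← h1, sub_self]
  rcases hd.dom _ _ h2 with h3 | h3
  · exact absurd h3 hv0
  · rw [sub_eq_zero.1 h3]
    exact ht.hom t

/-- common root -/
lemma root1 {w : Fin n → ℝ} (hd : DegFacts K w) (ht : TopFacts K w) :
    ∀ (N l k : ℕ) (u v : A K n), l + k ≤ N → LL l u → LL k v → Hom w u → Hom w v →
      0 < dg w u → 0 < dg w v → u * v = v * u →
      ∃ (z : A K n) (a b : K) (i j : ℕ), Hom w z ∧ 0 < dg w z ∧ a ≠ 0 ∧ b ≠ 0 ∧ 0 < i ∧ 0 < j ∧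
        u = a • z ^ i ∧ v = b • z ^ j := by
  intro N
  induction N with
  | zero =>
    intro l k u v hN hu hv _ _ pu _ _
    have := pos_len hd hu pu
    omega
  | succ N ih =>
    have main : ∀ (l k : ℕ) (u v : A K n), l + k ≤ N + 1 → k ≤ l → LL l u → LL k v → Hom w u →
        Hom w v → 0 < dg w u → 0 < dg w v → u * v = v * u →
        ∃ (z : A K n) (a b : K) (i j : ℕ), Hom w z ∧ 0 < dg w z ∧ a ≠ 0 ∧ b ≠ 0 ∧ 0 < i ∧
          0 < j ∧ u = a • z ^ i ∧ v = b • z ^ j := by
      intro l k u v hN hkl hu hv hmu hmv pu pv h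
      have hk := pos_len hd hv pv
      have hu0 := ne_of_pos hd pu
      have hv0 := ne_of_pos hd pv
      obtain ⟨r, hr⟩ := Nat.exists_eq_add_of_le hkl
      rw [hr] at hu
      obtain ⟨t, htl, h1, h2⟩ := div_left hd.dom hu hv h hv0 hv0
      have ht0 : t ≠ 0 := by
        rintro rfl
        rw [mul_zero] at h1
        exact hu0 h1
      have hmt := hom_factor hd ht hmu hmv hu0 h1
      rcases Nat.eq_zero_or_pos r with hr0 | hr0
      · subst hr0
        have hc := LL_zero_const htl
        have hc0 : t.coeff 1 ≠ 0 := by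
          intro h0
          rw [h0, zero_smul] at hc
          exact ht0 hc
        refine ⟨v, t.coeff 1, 1, 1, 1, hmv, pv, hc0, one_ne_zero, one_pos, one_pos, ?_, ?_⟩
        · rw [pow_one, h1]
          conv_lhs => rw [hc]
          rw [mul_smul_comm, mul_one]
        · rw [pow_one, one_smul]
      · have pt := pos_of_len hd htl hr0 ht0
        obtain ⟨z, a, b, i, j, hz, pz, ha, hb, hi, hj, e1, e2⟩ :=
          ih r k t v (by omega) htl hv hmt hmv pt pv (h2.trans h1)
        refine ⟨z, b * a, b, j + i, j, hz, pz, mul_ne_zero hb ha, hb, by omega, hj, ?_, e2⟩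
        rw [h1, e1]
        conv_lhs => rw [e2]
        rw [smul_mul_assoc, mul_smul_comm, smul_smul, pow_add]
    intro l k u v hN hu hv hmu hmv pu pv h
    rcases le_total k l with h1 | h1
    · exact main l k u v hN h1 hu hv hmu hmv pu pv h
    · obtain ⟨z, a, b, i, j, hz, pz, ha, hb, hi, hj, e1, e2⟩ :=
        main k l v u (by omega) h1 hv hu hmv hmu pv pu h.symm
      exact ⟨z, b, a, j, i, hz, pz, hb, ha, hj, hi, e2, e1⟩

/-- module COMW -/
theorem comw (K : Type*) [Field K] {n : ℕ} (w : Fin n → ℝ) (hw : Gen w) (hd : DegFacts K w)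
    (ht : TopFacts K w) : ComwFacts K w where
  trans f g h pf pg ph h1 h2 := by
    rw [ht.com f g pf pg] at h1
    rw [ht.com g h pg ph] at h2
    rw [ht.com f h pf ph]
    obtain ⟨l, hl⟩ := ht.len _ (ht.hom f)
    obtain ⟨m, hm⟩ := ht.len _ (ht.hom g)
    obtain ⟨k, hk⟩ := ht.len _ (ht.hom h)
    have qf : 0 < dg w (top w f) := by rw [ht.dgt]; exact pf
    have qg : 0 < dg w (top w g) := by rw [ht.dgt]; exact pg
    have qh : 0 < dg w (top w h) := by rw [ht.dgt]; exact ph
    exact trans1 hd.dom (v := top w g) hm (ne_of_pos hd qg) (pos_len hd hm qg) (l + k) l k _ _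
      le_rfl hl hk (ne_of_pos hd qf) (ne_of_pos hd qh) h1 h2.symm
  prop f g pf hfg h1 := by
    have pg : 0 < dg w g := by rw [← hfg]; exact pf
    rw [ht.com f g pf pg] at h1
    obtain ⟨l, hl⟩ := ht.len _ (ht.hom f)
    obtain ⟨m, hm⟩ := ht.len _ (ht.hom g)
    have qf : 0 < dg w (top w f) := by rw [ht.dgt]; exact pf
    have qg : 0 < dg w (top w g) := by rw [ht.dgt]; exact pg
    have hf0 := ne_of_pos hd qf
    have hg0 := ne_of_pos hd qg
    have hlm : l = m := by
      obtain ⟨p, hp⟩ : (top w f).coeff.support.Nonempty := by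
        rw [Finsupp.support_nonempty_iff]
        exact fun h2 => hf0 (MonoidAlgebra.coeff_eq_zero.1 h2)
      obtain ⟨q, hq⟩ : (top w g).coeff.support.Nonempty := by
        rw [Finsupp.support_nonempty_iff]
        exact fun h2 => hg0 (MonoidAlgebra.coeff_eq_zero.1 h2)
      have e1 := ht.hom f p hp
      have e2 := ht.hom g q hq
      rw [ht.dgt] at e1 e2
      have e3 := (hw.perm p q (by rw [e1, e2, hfg])).length_eq
      rw [hl p hp, hm q hq] at e3
      exact e3
    subst hlm
    obtain ⟨c, hc⟩ := prop1 hd.dom hl hm hg0 hg0 h1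
    have hc0 : c ≠ 0 := by
      rintro rfl
      rw [zero_smul] at hc
      exact hf0 hc
    refine ⟨c, hc0, ?_⟩
    have e4 : dg w f = dg w (c • g) := by rw [hd.smul c g hc0, hfg]
    rw [ht.lt f (c • g) pf e4, ht.smul]
    exact hc
  rat f g pf pg h1 := by
    rw [ht.com f g pf pg] at h1
    have qf : 0 < dg w (top w f) := by rw [ht.dgt]; exact pf
    have qg : 0 < dg w (top w g) := by rw [ht.dgt]; exact pg
    obtain ⟨l, hl⟩ := ht.len _ (ht.hom f)
    obtain ⟨m, hm⟩ := ht.len _ (ht.hom g)
    obtain ⟨z, a, b, i, j, _, _, ha, hb, hi, hj, e1, e2⟩ :=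
      root1 hd ht (l + m) l m _ _ le_rfl hl hm (ht.hom f) (ht.hom g) qf qg h1
    refine ⟨i, j, hi, hj, ?_⟩
    have d1 : dg w f = i * dg w z := by
      rw [← ht.dgt, e1, hd.smul a _ ha, hd.pow]
    have d2 : dg w g = j * dg w z := by
      rw [← ht.dgt, e2, hd.smul b _ hb, hd.pow]
    rw [d1, d2]
    ring
  root u v hu hv pu pv h := by
    obtain ⟨l, hl⟩ := ht.len _ hu
    obtain ⟨m, hm⟩ := ht.len _ hv
    exact root1 hd ht (l + m) l m _ _ le_rfl hl hm hu hv pu pv h

end Pool.Agent.Lib.MP_e1f7e2_al.FA.H44
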