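import Pool.Agent.Lib.MP_e1f7e2_al.FA.Iface

set_option autoImplicit false

/-!
Project FA, module FREE: free pairs.
-/

open MulOpposite

namespace Pool.Agent.Lib.MP_e1f7e2_al.FA.H44

variable {K : Type*} [Field K] {n : ℕ}

/-! ## degrees with arbitrary weights -/

lemma le_dgr {G : Type*} (ω : G → ℝ) {f : MonoidAlgebra K G} {u : G}
    (hu : u ∈ f.coeff.support) : ω u ≤ dgr ω f := by
  unfold dgr
  rw [dif_pos ⟨u, hu⟩]
  exact Finset.le_sup' ω hu

lemma exists_dgr {G : Type*} (ω : G → ℝ) {f : MonoidAlgebra K G} (hf : f ≠ 0) :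
    ∃ u ∈ f.coeff.support, ω u = dgr ω f := by
  have hne : f.coeff.support.Nonempty := by
    rw [Finsupp.support_nonempty_iff]
    exact fun h0 => hf (MonoidAlgebra.coeff_eq_zero.1 h0)
  unfold dgr
  rw [dif_pos hne]
  obtain ⟨u, hu, h⟩ := Finset.exists_mem_eq_sup' hne ω
  exact ⟨u, hu, h.symm⟩

lemma mem_cmp {G : Type*} (ω : G → ℝ) {f : MonoidAlgebra K G} {r : ℝ} {u : G} :
    u ∈ (cmp ω r f).coeff.support ↔ u ∈ f.coeff.support ∧ ω u = r := by
  unfold cmp
  rw [Finsupp.support_filter, Finset.mem_filter]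

lemma cmp_apply {G : Type*} (ω : G → ℝ) {f : MonoidAlgebra K G} {r : ℝ} {u : G}
    (hu : ω u = r) : (cmp ω r f).coeff u = f.coeff u := by
  unfold cmp
  exact Finsupp.filter_apply_pos _ _ hu

lemma top_ne {w : Fin n → ℝ} {f : A K n} (hf : f ≠ 0) : top w f ≠ 0 := by
  obtain ⟨u, hu, h⟩ := exists_dgr (wt w) hf
  intro h0
  have : u ∈ (top w f).coeff.support := (mem_cmp (wt w)).2 ⟨hu, h⟩
  rw [h0] at this
  simp at this

lemma dg_top {w : Fin n → ℝ} {f : A K n} (hf : f ≠ 0) : dg w (top w f) = dg w f := by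
  obtain ⟨u, hu, h⟩ := exists_dgr (wt w) (top_ne (w := w) hf)
  have := ((mem_cmp (wt w)).1 hu).2
  unfold dg at this ⊢
  rw [← h, this]

lemma hom_top {w : Fin n → ℝ} {f : A K n} (hf : f ≠ 0) : Hom w (top w f) := by
  intro u hu
  rw [dg_top hf]
  exact ((mem_cmp (wt w)).1 hu).2

/-! ## substitution -/

/-- value of a word -/
noncomputable def Wv (F : Fin 2 → A K n) (u : Wd 2) : A K n := FreeMonoid.lift F u

lemma ev_eq (P : A K 2) (f g : A K n) :
    ev P f g = ∑ u ∈ P.coeff.support, P.coeff u • Wv ![f, g] u := by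
  unfold ev evl
  rw [MonoidAlgebra.lift_apply]
  rfl

lemma ev_single (u : Wd 2) (c : K) (f g : A K n) :
    ev (MonoidAlgebra.single u c) f g = c • Wv ![f, g] u := by
  unfold ev evl
  rw [MonoidAlgebra.lift_single]
  rfl

lemma wt_of_mul (w : Fin n → ℝ) (i : Fin n) (u : Wd n) :
    wt w (FreeMonoid.of i * u) = w i + wt w u := by
  unfold wt
  rw [FreeMonoid.toList_mul, FreeMonoid.toList_of]
  simp

lemma Wv_cons (F : Fin 2 → A K n) (i : Fin 2) (u : Wd 2) :
    Wv F (FreeMonoid.of i * u) = F i * Wv F u := by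
  unfold Wv
  rw [map_mul, FreeMonoid.lift_eval_of]

lemma Wv_one (F : Fin 2 → A K n) : Wv F 1 = 1 := by
  unfold Wv
  exact map_one _

section

variable {w : Fin 3 → ℝ} (hd : DegFacts K w)

include hd

lemma dg_one : dg w (1 : A K 3) = 0 := by
  have := hd.const 1
  rw [one_smul] at this
  exact this

lemma dg_Wv {f g : A K 3} (u : Wd 2) : dg w (Wv ![f, g] u) ≤ wt ![dg w f, dg w g] u := by
  induction u using FreeMonoid.recOn with
  | one => rw [Wv_one, dg_one hd]; exact le_of_eq rfl
  | of_mul i u ih =>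
    rw [Wv_cons, wt_of_mul]
    refine (hd.mul_le _ _).trans (add_le_add ?_ ih)
    fin_cases i <;> exact le_refl _

omit hd in
lemma wt_pos {a b : ℝ} (ha : 0 < a) (hb : 0 < b) {u : Wd 2} (hu : u ≠ 1) : 0 < wt ![a, b] u := by
  have key : ∀ v : Wd 2, 0 ≤ wt ![a, b] v := by
    intro v
    induction v using FreeMonoid.recOn with
    | one => exact le_of_eq rfl
    | of_mul i v ih =>
      rw [wt_of_mul]
      refine add_nonneg ?_ ih
      fin_cases i
      · exact ha.le
      · exact hb.le
  induction u using FreeMonoid.recOn with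
  | one => exact absurd rfl hu
  | of_mul i u _ =>
    rw [wt_of_mul]
    refine add_pos_of_pos_of_nonneg ?_ (key u)
    fin_cases i
    · exact ha
    · exact hb

lemma dg_Wv_sub {f g f' g' : A K 3} (hf : dg w (f - f') < dg w f) (hg : dg w (g - g') < dg w g)
    (hf' : dg w f' = dg w f) (hg' : dg w g' = dg w g) {u : Wd 2} (hu : u ≠ 1) :
    dg w (Wv ![f, g] u - Wv ![f', g'] u) < wt ![dg w f, dg w g] u := by
  have pf : 0 < dg w f := lt_of_le_of_lt (hd.nn _) hf
  have pg : 0 < dg w g := lt_of_le_of_lt (hd.nn _) hg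
  induction u using FreeMonoid.recOn with
  | one => exact absurd rfl hu
  | of_mul i u ih =>
    rw [Wv_cons, Wv_cons, wt_of_mul]
    have h1 : ![f, g] i * Wv ![f, g] u - ![f', g'] i * Wv ![f', g'] u =
        (![f, g] i - ![f', g'] i) * Wv ![f, g] u +
          ![f', g'] i * (Wv ![f, g] u - Wv ![f', g'] u) := by
      rw [sub_mul, mul_sub]
      abel
    rw [h1]
    have h2 : dg w (![f, g] i - ![f', g'] i) < ![dg w f, dg w g] i := by
      fin_cases i
      · exact hf
      · exact hg
    have h3 : dg w (![f', g'] i) = ![dg w f, dg w g] i := by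
      fin_cases i
      · exact hf'
      · exact hg'
    have h4 : 0 < ![dg w f, dg w g] i := by
      fin_cases i
      · exact pf
      · exact pg
    refine lt_of_le_of_lt (hd.add_le _ _) (max_lt ?_ ?_)
    · exact lt_of_le_of_lt (hd.mul_le _ _) (add_lt_add_of_lt_of_le h2 (dg_Wv hd u))
    · by_cases hu1 : u = 1
      · subst hu1
        rw [Wv_one, Wv_one, sub_self, mul_zero, hd.zero]
        exact add_pos_of_pos_of_nonneg h4 (le_of_eq rfl)
      · refine lt_of_le_of_lt (hd.mul_le _ _) ?_
        rw [h3]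
        have := ih hu1
        linarith

lemma sum_lt {ι : Type} (s : Finset ι) (F : ι → A K 3) {r : ℝ} (hr : 0 < r)
    (h : ∀ i ∈ s, dg w (F i) < r) : dg w (∑ i ∈ s, F i) < r := by
  classical
  induction s using Finset.induction_on with
  | empty => rw [Finset.sum_empty, hd.zero]; exact hr
  | insert a s ha ih =>
    rw [Finset.sum_insert ha]
    exact lt_of_le_of_lt (hd.add_le _ _) (max_lt (h a (Finset.mem_insert_self _ _))
      (ih (fun i hi => h i (Finset.mem_insert_of_mem hi))))

/-- the difference between `P(f,g)` and the top of `P` at the tops -/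
lemma ev_sub_lt {f g f' g' : A K 3} (hf : dg w (f - f') < dg w f)
    (hg : dg w (g - g') < dg w g) (hf' : dg w f' = dg w f) (hg' : dg w g' = dg w g) {P : A K 2}
    (hr : 0 < dg ![dg w f, dg w g] P) :
    dg w (ev P f g - ev (top ![dg w f, dg w g] P) f' g') < dg ![dg w f, dg w g] P := by
  classical
  set r := dg ![dg w f, dg w g] P with hrdef
  have h1 : ev (top ![dg w f, dg w g] P) f' g' =
      ∑ u ∈ P.coeff.support, (if wt ![dg w f, dg w g] u = r then P.coeff u • Wv ![f', g'] u
        else 0) := by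
    rw [ev_eq, ← Finset.sum_filter]
    have hs : (top ![dg w f, dg w g] P).coeff.support =
        P.coeff.support.filter (fun u => wt ![dg w f, dg w g] u = r) := by
      ext u
      rw [Finset.mem_filter]
      exact mem_cmp _
    rw [hs]
    apply Finset.sum_congr rfl
    intro u hu
    have h2 : (top ![dg w f, dg w g] P).coeff u = P.coeff u :=
      cmp_apply _ (Finset.mem_filter.1 hu).2
    rw [h2]
  rw [h1, ev_eq, ← Finset.sum_sub_distrib]
  apply sum_lt hd _ _ hr
  intro u hu
  have hle : wt ![dg w f, dg w g] u ≤ r := le_dgr (wt ![dg w f, dg w g]) hu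
  by_cases hu2 : wt ![dg w f, dg w g] u = r
  · rw [if_pos hu2, ← smul_sub]
    refine lt_of_le_of_lt (hd.smul_le _ _) ?_
    rw [← hu2]
    apply dg_Wv_sub hd hf hg hf' hg'
    rintro rfl
    have h0 : wt ![dg w f, dg w g] (1 : Wd 2) = 0 := rfl
    rw [h0] at hu2
    exact absurd hr (by rw [← hu2]; exact lt_irrefl _)
  · rw [if_neg hu2, sub_zero]
    exact lt_of_le_of_lt (hd.smul_le _ _) (lt_of_le_of_lt (dg_Wv hd u) (lt_of_le_of_ne hle hu2))

omit hd in
/-- the tops -/
lemma top_data (ht : TopFacts K w) {f : A K 3} (pf : 0 < dg w f) :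
    dg w (f - top w f) < dg w f ∧ dg w (top w f) = dg w f ∧ Hom w (top w f) :=
  ⟨ht.sub f pf, ht.dgt f, ht.hom f⟩

/-- the main computation -/
lemma ev_top (ht : TopFacts K w) (he : EFacts K w) {f g : A K 3} (pf : 0 < dg w f)
    (pg : 0 < dg w g) (hn : ¬ Com w f g) {P : A K 2} (hr : 0 < dg ![dg w f, dg w g] P) :
    dg w (ev P f g) = dg ![dg w f, dg w g] P ∧
      top w (ev P f g) = ev (top ![dg w f, dg w g] P) (top w f) (top w g) := by
  obtain ⟨f1, f2, f3⟩ := top_data ht pf
  obtain ⟨g1, g2, g3⟩ := top_data ht pg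
  have hP : P ≠ 0 := by
    rintro rfl
    have h0 : dg ![dg w f, dg w g] (0 : A K 2) = 0 := by
      unfold dg dgr
      rw [dif_neg]
      simp
    rw [h0] at hr
    exact lt_irrefl _ hr
  have hlt := ev_sub_lt hd f1 g1 f2 g2 hr
  have hcom : top w f * top w g ≠ top w g * top w f := fun h => hn ((ht.com f g pf pg).2 h)
  have hne : ev (top ![dg w f, dg w g] P) (top w f) (top w g) ≠ 0 := by
    intro h0
    exact top_ne hP (he.inj _ _ _ hcom h0)
  have hh := ht.homtop (top ![dg w f, dg w g] P) (top w f) (top w g) (by rw [f2]; exact pf)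
    (by rw [g2]; exact pg) f3 g3 (by rw [f2, g2]; exact hom_top hP) hne
  rw [f2, g2, dg_top hP] at hh
  have hdg : dg w (ev P f g) = dg ![dg w f, dg w g] P := by
    have h1 : ev P f g = (ev P f g - ev (top ![dg w f, dg w g] P) (top w f) (top w g)) +
        ev (top ![dg w f, dg w g] P) (top w f) (top w g) := by abel
    have h2 : dg w (ev P f g - ev (top ![dg w f, dg w g] P) (top w f) (top w g)) <
        dg w (ev (top ![dg w f, dg w g] P) (top w f) (top w g)) := by
      rw [hh.2]
      exact hlt
    have h3 := hd.add_right _ _ h2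
    rw [← h1, hh.2] at h3
    exact h3
  refine ⟨hdg, ?_⟩
  apply ht.uniq _ _ (by rw [hdg]; exact hr) hh.1 (by rw [hh.2, hdg])
  rw [hdg]
  exact hlt

omit hd in
lemma dg_zero2 (a b : ℝ) : dg ![a, b] (0 : A K 2) = 0 := by
  unfold dg dgr
  rw [dif_neg]
  simp

omit hd in
lemma wt_nonneg {a b : ℝ} (ha : 0 < a) (hb : 0 < b) (v : Wd 2) : 0 ≤ wt ![a, b] v := by
  induction v using FreeMonoid.recOn with
  | one => exact le_of_eq rfl
  | of_mul i v ih =>
    rw [wt_of_mul]
    refine add_nonneg ?_ ih
    fin_cases i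
    · exact ha.le
    · exact hb.le

lemma fr0 (ht : TopFacts K w) (he : EFacts K w) (f g : A K 3) (P : A K 2) (pf : 0 < dg w f)
    (pg : 0 < dg w g) (hn : ¬ Com w f g) : dg w (ev P f g) = dg ![dg w f, dg w g] P := by
  by_cases hP : P = 0
  · subst hP
    rw [dg_zero2]
    unfold ev
    rw [map_zero, hd.zero]
  obtain ⟨u, hu, h⟩ := exists_dgr (wt ![dg w f, dg w g]) hP
  have hnn : 0 ≤ dg ![dg w f, dg w g] P := by
    have h' : wt ![dg w f, dg w g] u = dg ![dg w f, dg w g] P := h
    rw [← h']
    exact wt_nonneg pf pg u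
  rcases hnn.lt_or_eq with hr | hr
  · exact (ev_top hd ht he pf pg hn hr).1
  · have h1 : ∀ v ∈ P.coeff.support, v = 1 := by
      intro v hv
      by_contra hv1
      have h2 := le_dgr (wt ![dg w f, dg w g]) hv
      have h3 := wt_pos pf pg hv1
      have h4 : dgr (wt ![dg w f, dg w g]) P = dg ![dg w f, dg w g] P := rfl
      rw [h4, ← hr] at h2
      linarith
    rw [← hr, ev_eq]
    have h2 : ∑ u ∈ P.coeff.support, P.coeff u • Wv ![f, g] u =
        (∑ u ∈ P.coeff.support, P.coeff u) • (1 : A K 3) := by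
      rw [Finset.sum_smul]
      apply Finset.sum_congr rfl
      intro v hv
      rw [h1 v hv, Wv_one]
    rw [h2, hd.const]

omit hd in
lemma word1 {a b : ℝ} (ha : 0 < a) (hb : 0 < b) (u : Wd 2) :
    u = FreeMonoid.of 0 ^ u.toList.length ∨ b ≤ wt ![a, b] u := by
  induction u using FreeMonoid.recOn with
  | one => exact Or.inl rfl
  | of_mul i u ih =>
    have hl : (FreeMonoid.of i * u).toList.length = u.toList.length + 1 := by
      rw [FreeMonoid.toList_mul, FreeMonoid.toList_of]
      simp
    rw [wt_of_mul, hl]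
    fin_cases i
    · rcases ih with h | h
      · left
        rw [pow_succ']
        conv_lhs => rw [h]
        rfl
      · right
        show b ≤ a + wt ![a, b] u
        linarith
    · right
      show b ≤ b + wt ![a, b] u
      have := wt_nonneg ha hb u
      linarith

omit hd in
lemma min_le_wt {a b : ℝ} (ha : 0 < a) (hb : 0 < b) {u : Wd 2} (hu : u ≠ 1) :
    min a b ≤ wt ![a, b] u := by
  induction u using FreeMonoid.recOn with
  | one => exact absurd rfl hu
  | of_mul i u _ =>
    rw [wt_of_mul]
    have := wt_nonneg ha hb u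
    fin_cases i
    · show min a b ≤ a + wt ![a, b] u
      linarith [min_le_left a b]
    · show min a b ≤ b + wt ![a, b] u
      linarith [min_le_right a b]

omit hd in
lemma word2 {a b : ℝ} (ha : 0 < a) (hb : 0 < b) (u : Wd 2) :
    u = FreeMonoid.of 0 ^ u.toList.length ∨ u = FreeMonoid.of 1 ∨
      b + min a b ≤ wt ![a, b] u := by
  induction u using FreeMonoid.recOn with
  | one => exact Or.inl rfl
  | of_mul i u ih =>
    have hl : (FreeMonoid.of i * u).toList.length = u.toList.length + 1 := by
      rw [FreeMonoid.toList_mul, FreeMonoid.toList_of]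
      simp
    rw [wt_of_mul, hl]
    fin_cases i
    · rcases ih with h | h | h
      · left
        rw [pow_succ']
        conv_lhs => rw [h]
        rfl
      · right; right
        have h1 : wt ![a, b] u = b := by
          rw [h]
          unfold wt
          simp
        show b + min a b ≤ a + wt ![a, b] u
        rw [h1]
        linarith [min_le_left a b]
      · right; right
        show b + min a b ≤ a + wt ![a, b] u
        linarith
    · by_cases hu : u = 1
      · right; left
        rw [hu, mul_one]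
        rfl
      · right; right
        show b + min a b ≤ b + wt ![a, b] u
        linarith [min_le_wt ha hb hu]

omit hd in
lemma poly_of_words {P : A K 2} (h : ∀ u ∈ P.coeff.support, u = FreeMonoid.of 0 ^ u.toList.length)
    (f g : A K 3) : ∃ R : Polynomial K, ev P f g = Polynomial.aeval f R := by
  refine ⟨∑ u ∈ P.coeff.support, Polynomial.C (P.coeff u) * Polynomial.X ^ u.toList.length, ?_⟩
  rw [map_sum, ev_eq]
  apply Finset.sum_congr rfl
  intro u hu
  rw [map_mul, map_pow, Polynomial.aeval_C, Polynomial.aeval_X, ← Algebra.smul_def]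
  congr 1
  have h1 := h u hu
  conv_lhs => rw [h1]
  unfold Wv
  rw [map_pow, FreeMonoid.lift_eval_of]
  rfl

lemma fr1 (ht : TopFacts K w) (he : EFacts K w) (hc : ChainFacts K 3) (f g q : A K 3)
    (pf : 0 < dg w f) (pg : 0 < dg w g) (hn : ¬ Com w f g) (hq : q ∈ B f g)
    (hlt : dg w q < dg w g) : ∃ R : Polynomial K, q = Polynomial.aeval f R := by
  obtain ⟨P, hP⟩ := (hc.bmem f g q).1 hq
  have h1 := fr0 hd ht he f g P pf pg hn
  rw [hP]
  apply poly_of_words
  intro u hu
  rcases word1 pf pg u with h | h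
  · exact h
  · exfalso
    have h2 := le_dgr (wt ![dg w f, dg w g]) hu
    have h4 : dgr (wt ![dg w f, dg w g]) P = dg ![dg w f, dg w g] P := rfl
    rw [h4, ← h1, ← hP] at h2
    linarith

lemma fr2 (ht : TopFacts K w) (he : EFacts K w) (hc : ChainFacts K 3) (f g q : A K 3)
    (pf : 0 < dg w f) (pg : 0 < dg w g) (hn : ¬ Com w f g) (hq : q ∈ B f g)
    (hlt : dg w q < dg w g + min (dg w f) (dg w g)) :
    ∃ (c : K) (R : Polynomial K), q = c • g + Polynomial.aeval f R := by
  obtain ⟨P, hP⟩ := (hc.bmem f g q).1 hq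
  have h1 := fr0 hd ht he f g P pf pg hn
  have hwords : ∀ u ∈ P.coeff.support, u = FreeMonoid.of 0 ^ u.toList.length ∨
      u = FreeMonoid.of 1 := by
    intro u hu
    rcases word2 pf pg u with h | h | h
    · exact Or.inl h
    · exact Or.inr h
    · exfalso
      have h2 := le_dgr (wt ![dg w f, dg w g]) hu
      have h4 : dgr (wt ![dg w f, dg w g]) P = dg ![dg w f, dg w g] P := rfl
      rw [h4, ← h1, ← hP] at h2
      linarith
  obtain ⟨R, hR⟩ := poly_of_words (P := P.erase (FreeMonoid.of 1)) (by
    classical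
    intro u hu
    rw [MonoidAlgebra.coeff_erase, Finsupp.support_erase, Finset.mem_erase] at hu
    exact (hwords u hu.2).resolve_right hu.1) f g
  refine ⟨P.coeff (FreeMonoid.of 1), R, ?_⟩
  rw [hP, ← hR]
  conv_lhs => rw [← MonoidAlgebra.single_add_erase (FreeMonoid.of 1) P]
  have h2 : ev (MonoidAlgebra.single (FreeMonoid.of 1) (P.coeff (FreeMonoid.of 1)) +
      P.erase (FreeMonoid.of 1)) f g =
      ev (MonoidAlgebra.single (FreeMonoid.of 1) (P.coeff (FreeMonoid.of 1))) f g +
      ev (P.erase (FreeMonoid.of 1)) f g := by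
    unfold ev
    rw [map_add]
  rw [h2, ev_single]
  congr 2

omit hd in
/-- elements commuting with the first letter -/
lemma comm_words {Q : A K 2}
    (h : Q * MonoidAlgebra.single (FreeMonoid.of 0) 1 =
      MonoidAlgebra.single (FreeMonoid.of 0) 1 * Q) :
    ∀ j : ℕ, ∀ u ∈ Q.coeff.support, j ≤ u.toList.length →
      List.replicate j (0 : Fin 2) <+: u.toList := by
  intro j
  induction j with
  | zero => intro u _ _; exact List.nil_prefix
  | succ j ih =>
    intro u hu hj
    have hcu : Q.coeff u ≠ 0 := Finsupp.mem_support_iff.1 hu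
    have h1 : (Q * MonoidAlgebra.single (FreeMonoid.of 0) 1).coeff (u * FreeMonoid.of 0) =
        Q.coeff u := by
      rw [MonoidAlgebra.coeff_mul_single_mul, mul_one]
    rw [h] at h1
    rcases hl : u.toList with _ | ⟨i, t⟩
    · rw [hl] at hj
      simp at hj
    · have hu1 : u = FreeMonoid.of i * FreeMonoid.ofList t := by
        apply FreeMonoid.toList.injective
        rw [hl]
        rfl
      by_cases hi : i = 0
      · subst hi
        rw [hu1, mul_assoc, MonoidAlgebra.coeff_single_mul_mul, one_mul] at h1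
        have h2 : FreeMonoid.ofList t * FreeMonoid.of 0 ∈ Q.coeff.support := by
          rw [Finsupp.mem_support_iff, h1, ← hu1]
          exact hcu
        have h3 := ih _ h2 (by
          rw [hl] at hj
          rw [FreeMonoid.toList_mul, FreeMonoid.toList_ofList, FreeMonoid.toList_of]
          simp only [List.length_append, List.length_cons, List.length_nil] at hj ⊢
          omega)
        rw [FreeMonoid.toList_mul, FreeMonoid.toList_ofList] at h3
        rw [List.replicate_succ, List.cons_prefix_cons]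
        refine ⟨rfl, List.prefix_of_prefix_length_le h3 (List.prefix_append _ _) ?_⟩
        rw [List.length_replicate]
        rw [hl, List.length_cons] at hj
        omega
      · exfalso
        rw [hu1, MonoidAlgebra.coeff_single_mul_of_forall_mul_ne] at h1
        · rw [← hu1] at h1
          exact hcu h1.symm
        · intro d hd'
          have h4 := congrArg FreeMonoid.toList hd'
          simp only [FreeMonoid.toList_mul, FreeMonoid.toList_of, List.cons_append,
            List.nil_append, List.cons.injEq] at h4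
          exact hi h4.1.symm

omit hd in
lemma wt_pow (a b : ℝ) (k : ℕ) : wt ![a, b] (FreeMonoid.of 0 ^ k) = k * a := by
  induction k with
  | zero => rw [pow_zero, Nat.cast_zero, zero_mul]; rfl
  | succ k ih =>
    rw [pow_succ', wt_of_mul, ih]
    push_cast
    show a + k * a = (k + 1) * a
    ring

lemma top_pow (ht : TopFacts K w) {f : A K 3} (pf : 0 < dg w f) (k : ℕ) :
    top w (f ^ (k + 1)) = top w f ^ (k + 1) := by
  have hf0 : f ≠ 0 := by
    rintro rfl
    rw [hd.zero] at pf
    exact lt_irrefl _ pf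
  have hpow : ∀ k : ℕ, f ^ k ≠ 0 := by
    intro k
    induction k with
    | zero => simp
    | succ k ih =>
      rw [pow_succ]
      intro h0
      rcases hd.dom _ _ h0 with h | h
      · exact ih h
      · exact hf0 h
  induction k with
  | zero => rw [zero_add, pow_one, pow_one]
  | succ k ih => rw [pow_succ, ht.mul _ _ (hpow _) hf0, ih, ← pow_succ]

lemma fr3 (ht : TopFacts K w) (he : EFacts K w) (hc : ChainFacts K 3) (f g q : A K 3)
    (pf : 0 < dg w f) (pg : 0 < dg w g) (hn : ¬ Com w f g) (hq : q ∈ B f g) (pq : 0 < dg w q)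
    (hcom : Com w q f) : Dv w q f := by
  obtain ⟨P, hP⟩ := (hc.bmem f g q).1 hq
  have h1 := fr0 hd ht he f g P pf pg hn
  have hr : 0 < dg ![dg w f, dg w g] P := by
    rw [← h1, ← hP]
    exact pq
  have hP0 : P ≠ 0 := by
    rintro rfl
    rw [dg_zero2] at hr
    exact lt_irrefl _ hr
  have h2 := (ev_top hd ht he pf pg hn hr).2
  rw [← hP] at h2
  have h3 := (ht.com q f pq pf).1 hcom
  rw [h2] at h3
  have hcom' : top w f * top w g ≠ top w g * top w f := fun h => hn ((ht.com f g pf pg).2 h)
  have hx : ev (MonoidAlgebra.single (FreeMonoid.of 0) 1) (top w f) (top w g) = top w f := by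
    rw [ev_single, one_smul]
    unfold Wv
    rw [FreeMonoid.lift_eval_of]
    rfl
  have h4 : ev (top ![dg w f, dg w g] P * MonoidAlgebra.single (FreeMonoid.of 0) 1 -
      MonoidAlgebra.single (FreeMonoid.of 0) 1 * top ![dg w f, dg w g] P)
      (top w f) (top w g) = 0 := by
    have h5 : ∀ U V : A K 2, ev (U * V - V * U) (top w f) (top w g) =
        ev U (top w f) (top w g) * ev V (top w f) (top w g) -
        ev V (top w f) (top w g) * ev U (top w f) (top w g) := by
      intro U V
      unfold ev
      rw [map_sub, map_mul, map_mul]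
    rw [h5, hx, h3, sub_self]
  have h5 := sub_eq_zero.1 (he.inj _ _ _ hcom' h4)
  have h6 := comm_words h5
  have h7 : ∀ u ∈ (top ![dg w f, dg w g] P).coeff.support,
      u = FreeMonoid.of 0 ^ u.toList.length := by
    intro u hu
    have h8 := h6 _ u hu le_rfl
    have h9 := List.IsPrefix.eq_of_length h8 (by rw [List.length_replicate])
    apply FreeMonoid.toList.injective
    rw [← h9, List.length_replicate]
    generalize u.toList.length = k
    induction k with
    | zero => rfl
    | succ k ih =>
      rw [List.replicate_succ, pow_succ', FreeMonoid.toList_mul, ← ih]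
      rfl
  obtain ⟨u, hu, hur⟩ := exists_dgr (wt ![dg w f, dg w g]) (top_ne (w := ![dg w f, dg w g]) hP0)
  set k := u.toList.length with hk
  have hwt : ∀ v ∈ (top ![dg w f, dg w g] P).coeff.support,
      wt ![dg w f, dg w g] v = dg ![dg w f, dg w g] P := fun v hv => ((mem_cmp _).1 hv).2
  have huk : (k : ℝ) * dg w f = dg ![dg w f, dg w g] P := by
    rw [← hwt u hu, h7 u hu, wt_pow]
  have hsupp : ∀ v ∈ (top ![dg w f, dg w g] P).coeff.support, v = FreeMonoid.of 0 ^ k := by
    intro v hv
    have e1 : (v.toList.length : ℝ) * dg w f = dg ![dg w f, dg w g] P := by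
      rw [← hwt v hv]
      conv_rhs => rw [h7 v hv, wt_pow]
    have e2 : (v.toList.length : ℝ) = k := by
      have := e1.trans huk.symm
      exact mul_right_cancel₀ (ne_of_gt pf) this
    have e3 : v.toList.length = k := by exact_mod_cast e2
    rw [← e3]
    exact h7 v hv
  have htop : top ![dg w f, dg w g] P = MonoidAlgebra.single (FreeMonoid.of 0 ^ k)
      ((top ![dg w f, dg w g] P).coeff (FreeMonoid.of 0 ^ k)) := by
    ext v
    rw [MonoidAlgebra.coeff_single]
    by_cases hv : v = FreeMonoid.of 0 ^ k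
    · rw [hv, Finsupp.single_eq_same]
    · rw [Finsupp.single_eq_of_ne hv]
      by_contra h0
      exact hv (hsupp v (Finsupp.mem_support_iff.2 h0))
  set c := (top ![dg w f, dg w g] P).coeff (FreeMonoid.of 0 ^ k) with hcdef
  have hc0 : c ≠ 0 := by
    intro h0
    rw [h0, MonoidAlgebra.single_zero] at htop
    exact top_ne hP0 htop
  have hk0 : 0 < k := by
    rcases Nat.eq_zero_or_pos k with h0 | h0
    · rw [h0, Nat.cast_zero, zero_mul] at huk
      rw [← huk] at hr
      exact absurd hr (lt_irrefl _)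
    · exact h0
  obtain ⟨k', hk'⟩ : ∃ k', k = k' + 1 := ⟨k - 1, by omega⟩
  have htq : top w q = c • top w f ^ k := by
    rw [h2, htop, ev_single]
    congr 1
    unfold Wv
    rw [map_pow, FreeMonoid.lift_eval_of]
    rfl
  refine ⟨c, k, hk0, ?_⟩
  have hdgq : dg w q = dg w (c • f ^ k) := by
    rw [hd.smul _ _ hc0, hd.pow, huk, hP, h1]
  rw [ht.lt q (c • f ^ k) pq hdgq, ht.smul, hk', top_pow hd ht pf, ← hk']
  exact htq

end

/-- module FREE -/
theorem free (K : Type*) [Field K] (w : Fin 3 → ℝ) (_hw : Gen w) (hd : DegFacts K w)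
    (ht : TopFacts K w) (hc : ChainFacts K 3) (he : EFacts K w) : FreeFacts K w where
  fr0 f g P pf pg hn := fr0 hd ht he f g P pf pg hn
  fr1 f g q pf pg hn hq h := fr1 hd ht he hc f g q pf pg hn hq h
  fr2 f g q pf pg hn hq h := fr2 hd ht he hc f g q pf pg hn hq h
  fr3 f g q pf pg hn hq pq h := fr3 hd ht he hc f g q pf pg hn hq pq h

end Pool.Agent.Lib.MP_e1f7e2_al.FA.H44
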